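import Pool.Agent.Q223.Flower.Det

/-!
# MP_079569_co: the determinant factors along the flower decomposition of an R-disjoint graph
-/

namespace Pool.Agent.Results.MP_079569_co.FlowerDeterminant

open Pool.Agent.Q223.Flower

/-- For every finite `R`-disjoint graph `G` the determinant of the adjacency matrix is the product
of the determinants of the adjacency matrices of the subgraphs induced by the parts
`B(G), R(C_1), …, R(C_k)` of the flower decomposition. -/
theorem result {V : Type*} [Fintype V] (G : SimpleGraph V) (hG : RDisjoint G) :
    detAdj G = detInduced G (bPart G) *
      ∏ E ∈ (Set.toFinite (oddCycles G)).toFinset, detInduced G (reach G E) :=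
  main G hG

end Pool.Agent.Results.MP_079569_co.FlowerDeterminant
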